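import Pool.Agent.Helper2.LD.St1

/-!
# LD project, module A1: assembly of part A1
-/

set_option autoImplicit false

namespace Pool.Agent.Helper49.LD

open Pool.Agent.Helper2.LD

private theorem ef_of_half (hE : StEFb) {V W : Type} (G : SimpleGraph V) (H : SimpleGraph W)
    (r : ℕ) (p : List (V × W)) (v0 : V) (h1 : ∀ v, ∃ w, EF G H r ((v, w) :: p))
    (h2 : ∀ w, ∃ v, EF G H r ((v, w) :: p)) : EF G H (r + 1) p := by
  obtain ⟨w0, hw0⟩ := h1 v0
  have h3 : PI G H ((v0, w0) :: p) := hE.pi G H r _ hw0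
  have h4 : EF G H 0 p := hE.sub G H 0 ((v0, w0) :: p) p (fun x hx => List.mem_cons_of_mem _ hx) h3
  exact ⟨h4, h1, h2⟩

private theorem half_symm (hE : StEFb) {V W : Type} (G : SimpleGraph V) (H : SimpleGraph W)
    (r : ℕ) (p : List (V × W)) (h : ∀ w, ∃ v, EF H G r ((w, v) :: p.map Prod.swap)) :
    ∀ w, ∃ v, EF G H r ((v, w) :: p) := by
  intro w
  obtain ⟨v, hv⟩ := h w
  refine ⟨v, ?_⟩
  have h1 := hE.symm H G r _ hv
  have h2 : ((w, v) :: p.map Prod.swap).map Prod.swap = (v, w) :: p := by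
    rw [List.map_cons, List.map_map]
    simp
  rw [h2] at h1
  exact h1

section claim

variable (hE : StEFb) (hSy : StInvSym) (hSt : StInvStep) (hEn : StInvEnd) (h1 : StEF1)
  (hF : StFull)

include hE hSy in
private theorem full_of_half {K : Type} [Fintype K] [DecidableEq K] {k : ℕ} (C : KCode k K) (n : ℕ)
    (half : ∀ {V V' : Type} (S : SimpleGraph V) (lab : V → Finset K) (S' : SimpleGraph V')
      (lab' : V' → Finset K), HypS k S → HypS k S' → ∀ (fl : Bool)
      (m1 m2 m3 : FullV k C lab × FullV k C lab') (q : List (FullV k C lab × FullV k C lab')),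
      Inv k C S lab S' lab' (n + 2) fl m1 m2 m3 q →
      ∀ v, ∃ v', EF (full k C S lab) (full k C S' lab') (n + 1) ((v, v') :: (q ++ [m3, m2, m1])))
    {V V' : Type} (S : SimpleGraph V) (lab : V → Finset K) (S' : SimpleGraph V')
    (lab' : V' → Finset K) (hS : HypS k S) (hS' : HypS k S') (fl : Bool)
    (m1 m2 m3 : FullV k C lab × FullV k C lab') (q : List (FullV k C lab × FullV k C lab'))
    (hI : Inv k C S lab S' lab' (n + 2) fl m1 m2 m3 q) :
    EF (full k C S lab) (full k C S' lab') (n + 2) (q ++ [m3, m2, m1]) := by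
  refine ef_of_half hE _ _ (n + 1) _ m3.1 (half S lab S' lab' hS hS' fl m1 m2 m3 q hI) ?_
  refine half_symm hE _ _ (n + 1) _ ?_
  have h2 := half S' lab' S lab hS' hS fl m1.swap m2.swap m3.swap (q.map Prod.swap)
    (hSy k C S lab S' lab' (n + 2) fl m1 m2 m3 q hI)
  have h3 : (q ++ [m3, m2, m1]).map Prod.swap = q.map Prod.swap ++ [m3.swap, m2.swap, m1.swap] := by
    rw [List.map_append]
    rfl
  rw [h3]
  exact h2

include hE hSy hSt hEn h1 hF in
private theorem claim {K : Type} [Fintype K] [DecidableEq K] {k : ℕ} (hk : 40 ≤ k)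
    (hK : k + 8 ≤ Fintype.card K) (C : KCode k K) (n : ℕ) :
    ∀ {V V' : Type} (S : SimpleGraph V) (lab : V → Finset K) (S' : SimpleGraph V')
      (lab' : V' → Finset K), HypS k S → HypS k S' → ∀ (fl : Bool)
      (m1 m2 m3 : FullV k C lab × FullV k C lab') (q : List (FullV k C lab × FullV k C lab')),
      Inv k C S lab S' lab' (n + 2) fl m1 m2 m3 q →
      ∀ v, ∃ v', EF (full k C S lab) (full k C S' lab') (n + 1) ((v, v') :: (q ++ [m3, m2, m1])) := by
  induction n with
  | zero =>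
    intro V V' S lab S' lab' hS hS' fl m1 m2 m3 q hI v
    obtain ⟨v', hv'⟩ := hEn k hk hK C S lab S' lab' hS hS' fl m1 m2 m3 q hI v
    obtain ⟨hb, hc, hf⟩ := hF k hk hK C S lab hS
    obtain ⟨hb', hc', hf'⟩ := hF k hk hK C S' lab' hS'
    refine ⟨v', h1 _ _ k hb hb' hc hc' hf hf' _ ?_ hv'⟩
    have hl := hI.len
    simp only [List.length_cons, List.length_append, List.length_nil]
    omega
  | succ n ih =>
    intro V V' S lab S' lab' hS hS' fl m1 m2 m3 q hI v
    obtain ⟨v', fl', hv'⟩ := hSt k hk hK C S lab S' lab' hS hS' (n + 2) (by omega) fl m1 m2 m3 q hI v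
    refine ⟨v', ?_⟩
    have h2 := full_of_half hE hSy C n (fun S lab S' lab' => ih S lab S' lab') S lab S' lab' hS hS' fl'
      m1 m2 m3 ((v, v') :: q) hv'
    exact h2

include hE hSy hSt hEn h1 hF in
private theorem claim' {K : Type} [Fintype K] [DecidableEq K] {k : ℕ} (hk : 40 ≤ k)
    (hK : k + 8 ≤ Fintype.card K) (C : KCode k K) (n : ℕ)
    {V V' : Type} (S : SimpleGraph V) (lab : V → Finset K) (S' : SimpleGraph V')
    (lab' : V' → Finset K) (hS : HypS k S) (hS' : HypS k S') (fl : Bool)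
    (m1 m2 m3 : FullV k C lab × FullV k C lab') (q : List (FullV k C lab × FullV k C lab'))
    (hI : Inv k C S lab S' lab' (n + 2) fl m1 m2 m3 q) :
    EF (full k C S lab) (full k C S' lab') (n + 2) (q ++ [m3, m2, m1]) :=
  full_of_half hE hSy C n
    (fun S lab S' lab' => claim hE hSy hSt hEn h1 hF hk hK C n S lab S' lab') S lab S' lab' hS hS' fl
    m1 m2 m3 q hI

end claim

/-- Module A1. -/
theorem pA1 (hE : StEFb) (hSy : StInvSym) (hSt : StInvStep) (hEn : StInvEnd) (h1 : StEF1)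
    (hF : StFull) (hJ : StJ12) (hJ3 : StJ3) : StA1 := by
  intro K V V' _ _ k hk hK C S lab S' lab' hS hS' hD
  obtain ⟨n, rfl⟩ : ∃ n, k = n + 5 := ⟨k - 5, by omega⟩
  -- from two marks
  have key2 : ∀ {V V' : Type} (S : SimpleGraph V) (lab : V → Finset K) (S' : SimpleGraph V')
      (lab' : V' → Finset K), HypS (n + 5) S → HypS (n + 5) S' →
      ∀ (u v : FullV (n + 5) C lab) (u' v' : FullV (n + 5) C lab'), J2 S S' u v u' v' →
      ∀ w, ∃ w', EF (full (n + 5) C S lab) (full (n + 5) C S' lab') (n + 2)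
        ((w, w') :: [(v, v'), (u, u')]) := by
    intro V V' S lab S' lab' hS hS' u v u' v' h w
    obtain ⟨w', fl, hI⟩ := hJ3 (n + 5) hk hK C S lab S' lab' hS hS' u v u' v' h w
    have hn : n + 5 - 3 = n + 2 := by omega
    rw [hn] at hI
    exact ⟨w', claim' hE hSy hSt hEn h1 hF hk hK C n S lab S' lab' hS hS' fl _ _ _ [] hI⟩
  have hJ' := hJ (n + 5) C S lab S' lab' hD
  have key2' : ∀ (u v : FullV (n + 5) C lab) (u' v' : FullV (n + 5) C lab'),
      J2 S S' u v u' v' →
      EF (full (n + 5) C S lab) (full (n + 5) C S' lab') (n + 3) [(v, v'), (u, u')] := by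
    intro u v u' v' h
    refine ef_of_half hE _ _ (n + 2) _ u (key2 S lab S' lab' hS hS' u v u' v' h) ?_
    refine half_symm hE _ _ (n + 2) _ ?_
    exact key2 S' lab' S lab hS' hS u' v' u v (hJ'.2.2.2 u v u' v' h)
  have key1 : ∀ (u : FullV (n + 5) C lab) (u' : FullV (n + 5) C lab'), J1 S S' u u' →
      EF (full (n + 5) C S lab) (full (n + 5) C S' lab') (n + 4) [(u, u')] := by
    intro u u' h
    refine ef_of_half hE _ _ (n + 3) _ u ?_ ?_
    · intro v
      obtain ⟨v', hv'⟩ := (hJ'.2.2.1 u u' h).1 v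
      exact ⟨v', key2' u v u' v' hv'⟩
    · intro v'
      obtain ⟨v, hv⟩ := (hJ'.2.2.1 u u' h).2 v'
      exact ⟨v, key2' u v u' v' hv⟩
  refine ⟨?_, ?_, ?_⟩
  · intro x hx
    exact absurd hx List.not_mem_nil
  · intro u
    obtain ⟨u', hu'⟩ := hJ'.1 u
    exact ⟨u', key1 u u' hu'⟩
  · intro u'
    obtain ⟨u, hu⟩ := hJ'.2.1 u'
    exact ⟨u, key1 u u' hu⟩

end Pool.Agent.Helper49.LD
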